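import Pool.Agent.Helper44.CM.Defs

/-!
Project MM, block B7: cut-off functions and convergence in `L²(e^{-W})`.
-/

open MeasureTheory Filter Topology
open scoped ContDiff

namespace Pool.Agent.Helper52.MM

open CM

variable {n : ℕ}

/-- the fixed bump function: `1` on the unit ball, `0` outside the ball of radius `2`. -/
noncomputable def bmp (n : ℕ) : ContDiffBump (0 : E n) := ⟨1, 2, one_pos, one_lt_two⟩

/-- scaled cut-off -/
noncomputable def chi (R : ℝ) (x : E n) : ℝ := bmp n (R⁻¹ • x)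

theorem chi_smooth (R : ℝ) : ContDiff ℝ ∞ (chi R : E n → ℝ) := by
  unfold chi
  exact (bmp n).contDiff.comp (contDiff_const_smul _)

theorem chi_smooth2 (R : ℝ) : ContDiff ℝ 2 (chi R : E n → ℝ) :=
  (chi_smooth R).of_le (WithTop.coe_le_coe.mpr le_top)

theorem chi_even (R : ℝ) : IsEv (chi R : E n → ℝ) := by
  intro x
  unfold chi
  rw [smul_neg, (bmp n).neg]

theorem chi_nonneg (R : ℝ) (x : E n) : 0 ≤ chi R x := (bmp n).nonneg

theorem chi_le_one (R : ℝ) (x : E n) : chi R x ≤ 1 := (bmp n).le_one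

theorem chi_one {R : ℝ} (hR : 0 < R) {x : E n} (hx : ‖x‖ ≤ R) : chi R x = 1 := by
  unfold chi
  apply (bmp n).one_of_mem_closedBall
  rw [mem_closedBall_zero_iff, norm_smul, norm_inv, Real.norm_of_nonneg hR.le]
  show R⁻¹ * ‖x‖ ≤ 1
  rw [inv_mul_le_iff₀ hR]
  linarith

theorem chi_zero {R : ℝ} (hR : 0 < R) {x : E n} (hx : 2 * R ≤ ‖x‖) : chi R x = 0 := by
  unfold chi
  apply (bmp n).zero_of_le_dist
  rw [dist_zero_right, norm_smul, norm_inv, Real.norm_of_nonneg hR.le]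
  show 2 ≤ R⁻¹ * ‖x‖
  rw [le_inv_mul_iff₀ hR]
  linarith

theorem chi_hcs {R : ℝ} (hR : 0 < R) : HasCompactSupport (chi R : E n → ℝ) := by
  apply HasCompactSupport.of_support_subset_isCompact (isCompact_closedBall (0 : E n) (2 * R))
  intro x hx
  rw [mem_closedBall_zero_iff]
  by_contra hcon
  push Not at hcon
  exact hx (chi_zero hR hcon.le)

theorem pd_scale (i : Fin n) (f : E n → ℝ) (c : ℝ) (x : E n) :
    pd i (fun y => f (c • y)) x = c * pd i f (c • x) := by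
  unfold pd
  rw [fderiv_comp_smul]
  simp

theorem eul_scale (f : E n → ℝ) (c : ℝ) (x : E n) :
    eul (fun y => f (c • y)) x = eul f (c • x) := by
  unfold eul
  rw [fderiv_comp_smul]
  simp

theorem pd_const_mul (i : Fin n) (c : ℝ) {f : E n → ℝ} {x : E n} (hf : DifferentiableAt ℝ f x) :
    pd i (fun y => c * f y) x = c * pd i f x := by
  unfold pd
  rw [fderiv_const_mul hf]
  rfl

theorem pd_add' (i : Fin n) {f g : E n → ℝ} {x : E n} (hf : DifferentiableAt ℝ f x)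
    (hg : DifferentiableAt ℝ g x) : pd i (fun y => f y + g y) x = pd i f x + pd i g x := by
  unfold pd
  rw [fderiv_fun_add hf hg]
  rfl

theorem pd_mul' (i : Fin n) {f g : E n → ℝ} {x : E n} (hf : DifferentiableAt ℝ f x)
    (hg : DifferentiableAt ℝ g x) :
    pd i (fun y => f y * g y) x = pd i f x * g x + f x * pd i g x := by
  unfold pd
  rw [fderiv_fun_mul hf hg]
  simp
  ring

theorem eul_mul' {f g : E n → ℝ} {x : E n} (hf : DifferentiableAt ℝ f x)
    (hg : DifferentiableAt ℝ g x) :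
    eul (fun y => f y * g y) x = eul f x * g x + f x * eul g x := by
  unfold eul
  rw [fderiv_fun_mul hf hg]
  simp
  ring

theorem pd_diff {f : E n → ℝ} (i : Fin n) (hf : ContDiff ℝ 2 f) : Differentiable ℝ (pd i f) := by
  unfold pd
  have h1 : ContDiff ℝ 1 (fderiv ℝ f) := hf.fderiv_right (by norm_num)
  exact (h1.clm_apply contDiff_const).differentiable one_ne_zero

theorem hess_mul' (i j : Fin n) {f g : E n → ℝ} (x : E n) (hf : ContDiff ℝ 2 f)
    (hg : ContDiff ℝ 2 g) :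
    hess (fun y => f y * g y) x i j = hess f x i j * g x + pd j f x * pd i g x +
      pd i f x * pd j g x + f x * hess g x i j := by
  have df : Differentiable ℝ f := hf.differentiable two_ne_zero
  have dg : Differentiable ℝ g := hg.differentiable two_ne_zero
  have e1 : pd j (fun y => f y * g y) = fun y => pd j f y * g y + f y * pd j g y := by
    funext y
    exact pd_mul' j (df y) (dg y)
  show pd i (pd j (fun y => f y * g y)) x = pd i (pd j f) x * g x + pd j f x * pd i g x +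
      pd i f x * pd j g x + f x * pd i (pd j g) x
  rw [e1, pd_add' i (((pd_diff j hf) x).fun_mul (dg x)) ((df x).fun_mul ((pd_diff j hg) x)),
    pd_mul' i ((pd_diff j hf) x) (dg x), pd_mul' i (df x) ((pd_diff j hg) x)]
  ring

theorem AK_mul' (τ : E n → Mt n) (κ : ℝ) {f g : E n → ℝ} (x : E n) (hf : ContDiff ℝ 2 f)
    (hg : ContDiff ℝ 2 g) :
    AK τ κ (fun y => f y * g y) x = f x * AK τ κ g x -
      (∑ i, ∑ j, τ x i j * (hess f x i j * g x + pd j f x * pd i g x + pd i f x * pd j g x)) +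
      eul f x * g x := by
  have df : Differentiable ℝ f := hf.differentiable two_ne_zero
  have dg : Differentiable ℝ g := hg.differentiable two_ne_zero
  unfold AK LL tr2
  rw [eul_mul' (df x) (dg x)]
  have e1 : ∑ i, ∑ j, τ x i j * hess (fun y => f y * g y) x i j =
      (∑ i, ∑ j, τ x i j * (hess f x i j * g x + pd j f x * pd i g x + pd i f x * pd j g x)) +
      f x * ∑ i, ∑ j, τ x i j * hess g x i j := by
    rw [Finset.mul_sum, ← Finset.sum_add_distrib]
    apply Finset.sum_congr rfl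
    intro i _
    rw [Finset.mul_sum, ← Finset.sum_add_distrib]
    apply Finset.sum_congr rfl
    intro j _
    rw [hess_mul' i j x hf hg]
    ring
  rw [e1]
  ring

theorem pd_cont_of {f : E n → ℝ} {k : ℕ∞} (i : Fin n) (hf : ContDiff ℝ (k + 1) f) :
    ContDiff ℝ k (pd i f) := by
  unfold pd
  exact (hf.fderiv_right le_rfl).clm_apply contDiff_const

theorem pd_hcs {f : E n → ℝ} (i : Fin n) (hf : HasCompactSupport f) :
    HasCompactSupport (pd i f) := by
  unfold pd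
  exact hf.fderiv_apply (𝕜 := ℝ) (EuclideanSpace.single i (1 : ℝ))

theorem eul_hcs {f : E n → ℝ} (hf : HasCompactSupport f) :
    HasCompactSupport (eul f) := by
  apply HasCompactSupport.of_support_subset_isCompact (hf.fderiv (𝕜 := ℝ)).isCompact
  intro x hx
  apply subset_tsupport
  intro h0
  apply hx
  show fderiv ℝ f x x = 0
  rw [h0]
  simp

/-- derivative bounds for the cut-off -/
theorem chi_bounds (n : ℕ) : ∃ C : ℝ, 0 ≤ C ∧ ∀ R : ℝ, 1 ≤ R → ∀ x : E n,
    |chi R x| ≤ C ∧ (∀ i, |pd i (chi R) x| ≤ C) ∧ (∀ i j, |pd i (pd j (chi R)) x| ≤ C) ∧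
    |eul (chi R) x| ≤ C := by
  have hb : ContDiff ℝ ∞ (bmp n : E n → ℝ) := (bmp n).contDiff
  have hc : HasCompactSupport (bmp n : E n → ℝ) := (bmp n).hasCompactSupport
  have h1 : ∀ i, ContDiff ℝ ∞ (pd i (bmp n : E n → ℝ)) := fun i =>
    pd_cont_of (k := ⊤) i (by simpa using hb)
  have h2 : ∀ i j, ContDiff ℝ ∞ (pd i (pd j (bmp n : E n → ℝ))) := fun i j =>
    pd_cont_of (k := ⊤) i (by simpa using h1 j)
  have hB : ∀ g : E n → ℝ, Continuous g → HasCompactSupport g → ∃ C : ℝ, 0 ≤ C ∧ ∀ x, |g x| ≤ C := by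
    intro g hg hgc
    obtain ⟨C, hC⟩ := hg.bounded_above_of_compact_support hgc
    refine ⟨max C 0, le_max_right _ _, fun x => le_trans ?_ (le_max_left _ _)⟩
    simpa [Real.norm_eq_abs] using hC x
  choose C1 hC1 hC1' using fun i => hB (pd i (bmp n : E n → ℝ)) (h1 i).continuous (pd_hcs i hc)
  choose C2 hC2 hC2' using fun i j => hB (pd i (pd j (bmp n : E n → ℝ))) (h2 i j).continuous
    (pd_hcs i (pd_hcs j hc))
  have heul : Continuous (eul (bmp n : E n → ℝ)) := by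
    unfold eul
    exact (hb.continuous_fderiv (by simp)).clm_apply continuous_id
  obtain ⟨C3, hC3, hC3'⟩ := hB _ heul (eul_hcs hc)
  refine ⟨1 + ∑ i, C1 i + ∑ i, ∑ j, C2 i j + C3, ?_, ?_⟩
  · have e1 : 0 ≤ ∑ i, C1 i := Finset.sum_nonneg fun i _ => hC1 i
    have e2 : 0 ≤ ∑ i, ∑ j, C2 i j :=
      Finset.sum_nonneg fun i _ => Finset.sum_nonneg fun j _ => hC2 i j
    linarith
  · intro R hR x
    have hR0 : 0 < R := by linarith
    have hRi : 0 ≤ R⁻¹ := by positivity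
    have hRi1 : R⁻¹ ≤ 1 := inv_le_one_of_one_le₀ hR
    have e1 : 0 ≤ ∑ i, C1 i := Finset.sum_nonneg fun i _ => hC1 i
    have e2 : 0 ≤ ∑ i, ∑ j, C2 i j :=
      Finset.sum_nonneg fun i _ => Finset.sum_nonneg fun j _ => hC2 i j
    have hp : ∀ i, pd i (chi R : E n → ℝ) = fun y => R⁻¹ * pd i (bmp n : E n → ℝ) (R⁻¹ • y) := by
      intro i
      funext y
      exact pd_scale i _ _ y
    refine ⟨?_, ?_, ?_, ?_⟩
    · rw [abs_of_nonneg (chi_nonneg R x)]
      have := chi_le_one R x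
      linarith
    · intro i
      rw [hp i]
      show |R⁻¹ * pd i (bmp n : E n → ℝ) (R⁻¹ • x)| ≤ _
      rw [abs_mul, abs_of_nonneg hRi]
      have h3 : C1 i ≤ ∑ i, C1 i := Finset.single_le_sum (fun i _ => hC1 i) (Finset.mem_univ i)
      have h4 := hC1' i (R⁻¹ • x)
      have h5 : R⁻¹ * |pd i (bmp n : E n → ℝ) (R⁻¹ • x)| ≤ 1 * C1 i :=
        mul_le_mul hRi1 h4 (abs_nonneg _) (by norm_num)
      linarith
    · intro i j
      have hq : pd i (pd j (chi R : E n → ℝ)) x = R⁻¹ * (R⁻¹ *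
          pd i (pd j (bmp n : E n → ℝ)) (R⁻¹ • x)) := by
        rw [hp j]
        have hd : DifferentiableAt ℝ (fun y => pd j (bmp n : E n → ℝ) (R⁻¹ • y)) x :=
          (((h1 j).comp (contDiff_const_smul (R⁻¹ : ℝ))).differentiable (by simp)) x
        rw [pd_const_mul i _ hd, pd_scale]
      rw [hq, abs_mul, abs_mul, abs_of_nonneg hRi]
      have h3 : C2 i j ≤ ∑ i, ∑ j, C2 i j :=
        le_trans (Finset.single_le_sum (fun j _ => hC2 i j) (Finset.mem_univ j))
          (Finset.single_le_sum (f := fun i => ∑ j, C2 i j)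
            (fun i _ => Finset.sum_nonneg fun j _ => hC2 i j) (Finset.mem_univ i))
      have h4 := hC2' i j (R⁻¹ • x)
      have h5 : R⁻¹ * |pd i (pd j (bmp n : E n → ℝ)) (R⁻¹ • x)| ≤ 1 * C2 i j :=
        mul_le_mul hRi1 h4 (abs_nonneg _) (by norm_num)
      have h6 : R⁻¹ * (R⁻¹ * |pd i (pd j (bmp n : E n → ℝ)) (R⁻¹ • x)|) ≤ 1 * (1 * C2 i j) :=
        mul_le_mul hRi1 h5 (by positivity) (by norm_num)
      linarith
    · have hq : eul (chi R : E n → ℝ) x = eul (bmp n : E n → ℝ) (R⁻¹ • x) := eul_scale _ _ x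
      rw [hq]
      have := hC3' (R⁻¹ • x)
      linarith

/-- convergence of truncated quantities -/
theorem tail_tendsto (W : E n → ℝ) (G : E n → ℝ)
    (hG : Integrable (fun x => G x ^ 2 * Real.exp (-(W x)))) (f : ℕ → E n → ℝ)
    (hm : ∀ N, AEStronglyMeasurable (fun x => f N x ^ 2 * Real.exp (-(W x))) volume)
    (hb : ∀ N x, |f N x| ≤ G x) (h0 : ∀ x, ∀ᶠ N in atTop, f N x = 0) :
    Tendsto (fun N => ∫ x, f N x ^ 2 * Real.exp (-(W x))) atTop (𝓝 0) := by
  have h := tendsto_integral_of_dominated_convergence (μ := volume)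
    (F := fun N x => f N x ^ 2 * Real.exp (-(W x))) (f := fun _ : E n => (0 : ℝ))
    (fun x => G x ^ 2 * Real.exp (-(W x))) hm hG ?_ ?_
  · simpa using h
  · intro N
    refine Eventually.of_forall fun x => ?_
    have e1 : 0 ≤ Real.exp (-(W x)) := (Real.exp_pos _).le
    have e2 : f N x ^ 2 ≤ G x ^ 2 := by
      have := hb N x
      have h3 : 0 ≤ |f N x| := abs_nonneg _
      rw [← sq_abs]
      nlinarith
    rw [Real.norm_eq_abs, abs_of_nonneg (by positivity)]
    exact mul_le_mul_of_nonneg_right e2 e1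
  · refine Eventually.of_forall fun x => ?_
    have : (fun N => f N x ^ 2 * Real.exp (-(W x))) =ᶠ[atTop] fun _ => (0 : ℝ) := by
      filter_upwards [h0 x] with N hN
      rw [hN]
      ring
    exact tendsto_const_nhds.congr' this.symm

/-- integrability of the square of a polynomially bounded function -/
theorem int_sq (W : E n → ℝ)
    (hint : ∀ k : ℕ, Integrable (fun x : E n => (1 + ‖x‖) ^ k * Real.exp (-(W x))))
    (hW : Continuous W) (f : E n → ℝ) (hf : Continuous f) (C : ℝ) (k : ℕ)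
    (hb : ∀ x, |f x| ≤ C * (1 + ‖x‖) ^ k) :
    Integrable (fun x => f x ^ 2 * Real.exp (-(W x))) := by
  have h1 : Integrable (fun x : E n => C ^ 2 * ((1 + ‖x‖) ^ (2 * k) * Real.exp (-(W x)))) :=
    (hint (2 * k)).const_mul (C ^ 2)
  refine h1.mono' ?_ ?_
  · exact ((hf.pow 2).mul (Real.continuous_exp.comp hW.neg)).aestronglyMeasurable
  · refine Eventually.of_forall fun x => ?_
    have e1 : 0 ≤ Real.exp (-(W x)) := (Real.exp_pos _).le
    have e2 : f x ^ 2 ≤ C ^ 2 * (1 + ‖x‖) ^ (2 * k) := by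
      have h3 := hb x
      have h4 : 0 ≤ |f x| := abs_nonneg _
      have h5 : |f x| ^ 2 ≤ (C * (1 + ‖x‖) ^ k) ^ 2 := by
        apply pow_le_pow_left₀ h4 h3
      rw [sq_abs] at h5
      calc f x ^ 2 ≤ (C * (1 + ‖x‖) ^ k) ^ 2 := h5
        _ = C ^ 2 * (1 + ‖x‖) ^ (2 * k) := by rw [mul_pow, ← pow_mul, mul_comm k 2]
    rw [Real.norm_eq_abs, abs_of_nonneg (by positivity)]
    calc f x ^ 2 * Real.exp (-(W x)) ≤ (C ^ 2 * (1 + ‖x‖) ^ (2 * k)) * Real.exp (-(W x)) :=
          mul_le_mul_of_nonneg_right e2 e1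
      _ = C ^ 2 * ((1 + ‖x‖) ^ (2 * k) * Real.exp (-(W x))) := by ring

/-- `χ_R h → h` in `L²` -/
theorem cut_fun (W : E n → ℝ) (hW : Continuous W)
    (hint : ∀ k : ℕ, Integrable (fun x : E n => (1 + ‖x‖) ^ k * Real.exp (-(W x))))
    (h : E n → ℝ) (hh : Continuous h) (C : ℝ) (k : ℕ)
    (h0 : ∀ x, |h x| ≤ C * (1 + ‖x‖) ^ k) :
    Tendsto (fun N : ℕ => ∫ x, (chi ((N : ℝ) + 1) x * h x - h x) ^ 2 * Real.exp (-(W x)))
      atTop (𝓝 0) := by
  apply tail_tendsto W (fun x => |h x|)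
  · have := int_sq W hint hW h hh C k h0
    simpa [sq_abs] using this
  · intro N
    have hc : Continuous (chi ((N : ℝ) + 1) : E n → ℝ) := (chi_smooth _).continuous
    exact ((((hc.mul hh).sub hh).pow 2).mul
      (Real.continuous_exp.comp hW.neg)).aestronglyMeasurable
  · intro N x
    have h1 := chi_nonneg ((N : ℝ) + 1) x
    have h2 := chi_le_one ((N : ℝ) + 1) x
    have : chi ((N : ℝ) + 1) x * h x - h x = -((1 - chi ((N : ℝ) + 1) x) * h x) := by ring
    rw [this, abs_neg, abs_mul, abs_of_nonneg (by linarith)]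
    have h3 : 0 ≤ |h x| := abs_nonneg _
    nlinarith
  · intro x
    obtain ⟨N0, hN0⟩ := exists_nat_ge ‖x‖
    filter_upwards [eventually_ge_atTop N0] with N hN
    have h1 : ‖x‖ ≤ (N : ℝ) + 1 := by
      have : (N0 : ℝ) ≤ N := by exact_mod_cast hN
      linarith
    rw [chi_one (by positivity) h1]
    ring

/-- the derivatives of the cut-off vanish inside -/
theorem chi_inner {R : ℝ} (hR : 0 < R) {x : E n} (hx : ‖x‖ < R) :
    (∀ i, pd i (chi R) x = 0) ∧ (∀ i j, pd i (pd j (chi R)) x = 0) ∧ eul (chi R) x = 0 := by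
  have h1 : (chi R : E n → ℝ) =ᶠ[𝓝 x] fun _ => 1 := by
    have : Metric.ball (0 : E n) R ∈ 𝓝 x := Metric.isOpen_ball.mem_nhds (by simpa using hx)
    filter_upwards [this] with y hy
    exact chi_one hR (by simpa using (mem_ball_zero_iff.mp hy).le)
  have h2 : fderiv ℝ (chi R : E n → ℝ) =ᶠ[𝓝 x] fun _ => 0 := by
    have h3 := h1.fderiv (𝕜 := ℝ)
    filter_upwards [h3] with y hy
    rw [hy]
    simp
  have h4 : ∀ j, pd j (chi R : E n → ℝ) =ᶠ[𝓝 x] fun _ => 0 := by
    intro j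
    filter_upwards [h2] with y hy
    show fderiv ℝ (chi R) y (EuclideanSpace.single j (1 : ℝ)) = 0
    rw [hy]
    simp
  refine ⟨fun i => (h4 i).self_of_nhds, fun i j => ?_, ?_⟩
  · have h5 := (h4 j).fderiv (𝕜 := ℝ)
    show fderiv ℝ (pd j (chi R)) x (EuclideanSpace.single i (1 : ℝ)) = 0
    rw [h5.self_of_nhds]
    simp
  · show fderiv ℝ (chi R) x x = 0
    rw [h2.self_of_nhds]
    simp

theorem eul_eq (h : E n → ℝ) (x : E n) : eul h x = ∑ i, x i * pd i h x := by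
  unfold eul pd
  have h1 : x = ∑ i, x i • (EuclideanSpace.single i (1 : ℝ) : E n) := by
    have := (EuclideanSpace.basisFun (Fin n) ℝ).sum_repr x
    simpa using this.symm
  conv_lhs => rw [h1]
  rw [map_sum]
  apply Finset.sum_congr rfl
  intro i _
  rw [← h1, map_smul, smul_eq_mul]

theorem abs_coord (x : E n) (i : Fin n) : |x i| ≤ ‖x‖ := by
  have := EuclideanSpace.norm_eq x
  rw [this]
  apply Real.le_sqrt_of_sq_le
  rw [sq_abs]
  have h2 : ∀ j, 0 ≤ ‖x j‖ ^ 2 := fun j => by positivity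
  calc x i ^ 2 = ‖x i‖ ^ 2 := by rw [Real.norm_eq_abs, sq_abs]
    _ ≤ ∑ j, ‖x j‖ ^ 2 := Finset.single_le_sum (fun j _ => h2 j) (Finset.mem_univ i)

theorem eul_le {h : E n → ℝ} {x : E n} {B : ℝ} (hB : ∀ i, |pd i h x| ≤ B) :
    |eul h x| ≤ n * ‖x‖ * B := by
  rw [eul_eq]
  calc |∑ i, x i * pd i h x| ≤ ∑ i, |x i * pd i h x| := Finset.abs_sum_le_sum_abs _ _
    _ ≤ ∑ i : Fin n, ‖x‖ * B := by
        apply Finset.sum_le_sum
        intro i _
        rw [abs_mul]
        exact mul_le_mul (abs_coord x i) (hB i) (abs_nonneg _) (norm_nonneg _)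
    _ = n * ‖x‖ * B := by
        rw [Finset.sum_const, Finset.card_univ, Fintype.card_fin, nsmul_eq_mul]
        ring

theorem dsum_le (τ M : Mt n) {T B : ℝ} (hT : 0 ≤ T) (hτ : ∀ i j, |τ i j| ≤ T)
    (hM : ∀ i j, |M i j| ≤ B) : |∑ i, ∑ j, τ i j * M i j| ≤ n ^ 2 * T * B := by
  calc |∑ i, ∑ j, τ i j * M i j| ≤ ∑ i, |∑ j, τ i j * M i j| := Finset.abs_sum_le_sum_abs _ _
    _ ≤ ∑ i : Fin n, ∑ j : Fin n, T * B := by
        apply Finset.sum_le_sum
        intro i _
        refine le_trans (Finset.abs_sum_le_sum_abs _ _) (Finset.sum_le_sum fun j _ => ?_)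
        rw [abs_mul]
        exact mul_le_mul (hτ i j) (hM i j) (abs_nonneg _) hT
    _ = n ^ 2 * T * B := by
        rw [Finset.sum_const, Finset.sum_const, Finset.card_univ, Fintype.card_fin,
          nsmul_eq_mul, nsmul_eq_mul]
        ring

theorem AK_le (τ : E n → Mt n) {T : ℝ} (hT : 0 ≤ T) (hτ : ∀ x i j, |τ x i j| ≤ T) (κ : ℝ)
    (h : E n → ℝ) {x : E n} {B : ℝ} (hB0 : 0 ≤ B) (h0 : |h x| ≤ B) (h1 : ∀ i, |pd i h x| ≤ B)
    (h2 : ∀ i j, |hess h x i j| ≤ B) :
    |AK τ κ h x| ≤ (n ^ 2 * T + n + |κ|) * (B * (1 + ‖x‖)) := by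
  unfold AK LL tr2
  have e1 := dsum_le (τ x) (hess h x) hT (hτ x) h2
  have e2 := eul_le h1
  have e3 : |κ * h x| ≤ |κ| * B := by
    rw [abs_mul]
    exact mul_le_mul_of_nonneg_left h0 (abs_nonneg _)
  have hx := norm_nonneg x
  have hn : (0 : ℝ) ≤ n := Nat.cast_nonneg n
  have e4 : |-(∑ i, ∑ j, τ x i j * hess h x i j - eul h x) - κ * h x| ≤
      |∑ i, ∑ j, τ x i j * hess h x i j| + |eul h x| + |κ * h x| := by
    have a1 := abs_le.mp (le_refl |∑ i, ∑ j, τ x i j * hess h x i j|)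
    have a2 := abs_le.mp (le_refl |eul h x|)
    have a3 := abs_le.mp (le_refl |κ * h x|)
    rw [abs_le]
    constructor <;> linarith [a1.1, a1.2, a2.1, a2.2, a3.1, a3.2]
  have e5 : 0 ≤ (n ^ 2 * T + |κ|) * B * ‖x‖ := by positivity
  have e6 : 0 ≤ n * B := by positivity
  nlinarith

/-- `A (χ_R h) → A h` in `L²` -/
theorem cut_AK0 (W : E n → ℝ) (hW : Continuous W)
    (hint : ∀ k : ℕ, Integrable (fun x : E n => (1 + ‖x‖) ^ k * Real.exp (-(W x))))
    (τ : E n → Mt n) (hτc : ∀ i j, Continuous fun x => τ x i j) (T : ℝ) (hT : 0 ≤ T)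
    (hτ : ∀ x i j, |τ x i j| ≤ T) (κ : ℝ)
    (h : E n → ℝ) (hh : ContDiff ℝ 2 h) (C : ℝ) (k : ℕ)
    (h0 : ∀ x, |h x| ≤ C * (1 + ‖x‖) ^ k) (h1 : ∀ i x, |pd i h x| ≤ C * (1 + ‖x‖) ^ k)
    (h2 : ∀ i j x, |hess h x i j| ≤ C * (1 + ‖x‖) ^ k) :
    Tendsto (fun N : ℕ => ∫ x, (AK τ κ (fun y => chi ((N : ℝ) + 1) y * h y) x -
      AK τ κ h x) ^ 2 * Real.exp (-(W x))) atTop (𝓝 0) := by
  obtain ⟨K, hK0, hK⟩ := chi_bounds n
  have hC : 0 ≤ C := by
    have := h0 0
    have h3 : 0 ≤ |h 0| := abs_nonneg _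
    simp at this
    linarith
  set D : ℝ := (n ^ 2 * T + n + |κ|) * C + n ^ 2 * T * (3 * K * C) + K * C with hD
  have hAKc : ∀ g : E n → ℝ, ContDiff ℝ 2 g → Continuous (AK τ κ g) := by
    intro g hg
    unfold AK LL tr2 eul
    have c1 : ∀ i j, Continuous fun x => hess g x i j := by
      intro i j
      show Continuous (pd i (pd j g))
      have : ContDiff ℝ 1 (pd j g) := pd_cont_of (k := 1) j (by
        have : ((1 : ℕ∞) : WithTop ℕ∞) + 1 = 2 := by norm_num
        rw [this]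
        exact hg)
      exact (pd_cont_of (k := 0) i (by simpa using this)).continuous
    have c2 : Continuous fun x => fderiv ℝ g x x :=
      (hg.continuous_fderiv (by norm_num)).clm_apply continuous_id
    have c3 : Continuous g := hg.continuous
    have c4 : Continuous fun x => ∑ i, ∑ j, τ x i j * hess g x i j :=
      continuous_finsetSum _ fun i _ => continuous_finsetSum _ fun j _ => (hτc i j).mul (c1 i j)
    exact ((c4.sub c2).neg).sub (continuous_const.mul c3)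
  have hch : ∀ N : ℕ, ContDiff ℝ 2 (fun y => chi ((N : ℝ) + 1) y * h y) := fun N =>
    (chi_smooth2 _).mul hh
  apply tail_tendsto W (fun x => D * (1 + ‖x‖) ^ (k + 1))
  · apply int_sq W hint hW _ _ |D| (k + 1)
    · intro x
      rw [abs_mul, abs_of_nonneg (a := (1 + ‖x‖) ^ (k + 1)) (by positivity)]
    · fun_prop
  · intro N
    exact ((((hAKc _ (hch N)).sub (hAKc h hh)).pow 2).mul
      (Real.continuous_exp.comp hW.neg)).aestronglyMeasurable
  · intro N x
    have hP : (1 : ℝ) ≤ (N : ℝ) + 1 := by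
      have : (0 : ℝ) ≤ N := Nat.cast_nonneg N
      linarith
    obtain ⟨k0, k1, k2, k3⟩ := hK _ hP x
    set χ : E n → ℝ := chi ((N : ℝ) + 1) with hχ
    have hχ2 : ContDiff ℝ 2 χ := chi_smooth2 _
    rw [AK_mul' τ κ x hχ2 hh]
    set B : ℝ := C * (1 + ‖x‖) ^ k with hB
    have hB0 : 0 ≤ B := by positivity
    have e1 := AK_le τ hT hτ κ h hB0 (h0 x) (fun i => h1 i x) (fun i j => h2 i j x)
    have e2 : |∑ i, ∑ j, τ x i j * (hess χ x i j * h x + pd j χ x * pd i h x +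
        pd i χ x * pd j h x)| ≤ n ^ 2 * T * (3 * K * B) := by
      apply dsum_le (τ x) (Matrix.of fun i j => hess χ x i j * h x + pd j χ x * pd i h x +
        pd i χ x * pd j h x) hT (hτ x)
      intro i j
      show |hess χ x i j * h x + pd j χ x * pd i h x + pd i χ x * pd j h x| ≤ _
      have f1 : |hess χ x i j * h x| ≤ K * B := by
        rw [abs_mul]
        exact mul_le_mul (k2 i j) (h0 x) (abs_nonneg _) hK0
      have f2 : |pd j χ x * pd i h x| ≤ K * B := by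
        rw [abs_mul]
        exact mul_le_mul (k1 j) (h1 i x) (abs_nonneg _) hK0
      have f3 : |pd i χ x * pd j h x| ≤ K * B := by
        rw [abs_mul]
        exact mul_le_mul (k1 i) (h1 j x) (abs_nonneg _) hK0
      calc |hess χ x i j * h x + pd j χ x * pd i h x + pd i χ x * pd j h x|
          ≤ |hess χ x i j * h x + pd j χ x * pd i h x| + |pd i χ x * pd j h x| := abs_add_le _ _
        _ ≤ |hess χ x i j * h x| + |pd j χ x * pd i h x| + |pd i χ x * pd j h x| := by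
            have := abs_add_le (hess χ x i j * h x) (pd j χ x * pd i h x)
            linarith
        _ ≤ 3 * K * B := by linarith
    have e3 : |eul χ x * h x| ≤ K * B := by
      rw [abs_mul]
      exact mul_le_mul k3 (h0 x) (abs_nonneg _) hK0
    have e4 : |(1 - χ x) * AK τ κ h x| ≤ |AK τ κ h x| := by
      rw [abs_mul]
      have q1 := chi_nonneg ((N : ℝ) + 1) x
      have q2 := chi_le_one ((N : ℝ) + 1) x
      rw [abs_of_nonneg (by linarith : (0 : ℝ) ≤ 1 - χ x)]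
      have q3 : 0 ≤ |AK τ κ h x| := abs_nonneg _
      nlinarith
    have e5 : |χ x * AK τ κ h x - (∑ i, ∑ j, τ x i j * (hess χ x i j * h x + pd j χ x * pd i h x +
        pd i χ x * pd j h x)) + eul χ x * h x - AK τ κ h x| ≤ |(1 - χ x) * AK τ κ h x| +
        |∑ i, ∑ j, τ x i j * (hess χ x i j * h x + pd j χ x * pd i h x +
        pd i χ x * pd j h x)| + |eul χ x * h x| := by
      have a1 := abs_le.mp (le_refl |(1 - χ x) * AK τ κ h x|)
      have a2 := abs_le.mp (le_refl |∑ i, ∑ j, τ x i j * (hess χ x i j * h x +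
        pd j χ x * pd i h x + pd i χ x * pd j h x)|)
      have a3 := abs_le.mp (le_refl |eul χ x * h x|)
      rw [abs_le]
      constructor <;> nlinarith [a1.1, a1.2, a2.1, a2.2, a3.1, a3.2]
    have hx := norm_nonneg x
    have hnn : (0 : ℝ) ≤ n := Nat.cast_nonneg n
    have e6 : B ≤ C * (1 + ‖x‖) ^ (k + 1) := by
      rw [pow_succ, hB]
      have : 0 ≤ C * (1 + ‖x‖) ^ k * ‖x‖ := by positivity
      nlinarith
    have e7 : B * (1 + ‖x‖) = C * (1 + ‖x‖) ^ (k + 1) := by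
      rw [pow_succ, hB]
      ring
    rw [e7] at e1
    have e8 : n ^ 2 * T * (3 * K * B) ≤ n ^ 2 * T * (3 * K * (C * (1 + ‖x‖) ^ (k + 1))) := by
      apply mul_le_mul_of_nonneg_left _ (by positivity)
      apply mul_le_mul_of_nonneg_left e6 (by positivity)
    have e9 : K * B ≤ K * (C * (1 + ‖x‖) ^ (k + 1)) := mul_le_mul_of_nonneg_left e6 hK0
    calc _ ≤ _ := e5
      _ ≤ (n ^ 2 * T + n + |κ|) * (C * (1 + ‖x‖) ^ (k + 1)) +
          n ^ 2 * T * (3 * K * (C * (1 + ‖x‖) ^ (k + 1))) + K * (C * (1 + ‖x‖) ^ (k + 1)) := by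
          linarith
      _ = D * (1 + ‖x‖) ^ (k + 1) := by
          rw [hD]
          ring
  · intro x
    obtain ⟨N0, hN0⟩ := exists_nat_ge ‖x‖
    filter_upwards [eventually_ge_atTop N0] with N hN
    have hN' : ‖x‖ < (N : ℝ) + 1 := by
      have : (N0 : ℝ) ≤ N := by exact_mod_cast hN
      linarith
    have hP : (0 : ℝ) < (N : ℝ) + 1 := by positivity
    obtain ⟨z1, z2, z3⟩ := chi_inner hP hN'
    rw [AK_mul' τ κ x (chi_smooth2 _) hh, z3,
      chi_one hP hN'.le]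
    have : ∀ i j, hess (chi ((N : ℝ) + 1)) x i j = 0 := fun i j => z2 i j
    simp [this, z1]

/-- `A (χ_R h) → A h` in `L²` -/
theorem cut_AK (W : E n → ℝ) (hW : Continuous W)
    (hint : ∀ k : ℕ, Integrable (fun x : E n => (1 + ‖x‖) ^ k * Real.exp (-(W x))))
    (τ : E n → Mt n) (hτc : ∀ i j, Continuous fun x => τ x i j) (T : ℝ)
    (hτ : ∀ x i j, |τ x i j| ≤ T) (κ : ℝ)
    (h : E n → ℝ) (hh : ContDiff ℝ 2 h) (C : ℝ) (k : ℕ)
    (h0 : ∀ x, |h x| ≤ C * (1 + ‖x‖) ^ k) (h1 : ∀ i x, |pd i h x| ≤ C * (1 + ‖x‖) ^ k)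
    (h2 : ∀ i j x, |hess h x i j| ≤ C * (1 + ‖x‖) ^ k) :
    Tendsto (fun N : ℕ => ∫ x, (AK τ κ (fun y => chi ((N : ℝ) + 1) y * h y) x -
      AK τ κ h x) ^ 2 * Real.exp (-(W x))) atTop (𝓝 0) :=
  cut_AK0 W hW hint τ hτc (max T 0) (le_max_right _ _)
    (fun x i j => le_trans (hτ x i j) (le_max_left _ _)) κ h hh C k h0 h1 h2

/-- approximation by compactly supported functions, all in one statement -/
theorem cut_exists (W : E n → ℝ) (hW : Continuous W)
    (hint : ∀ k : ℕ, Integrable (fun x : E n => (1 + ‖x‖) ^ k * Real.exp (-(W x))))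
    (τ : E n → Mt n) (hτc : ∀ i j, Continuous fun x => τ x i j) (T : ℝ)
    (hτ : ∀ x i j, |τ x i j| ≤ T) (κ : ℝ)
    (h : E n → ℝ) (m : ℕ) (hm : 2 ≤ m) (hh : ContDiff ℝ m h) (C : ℝ) (k : ℕ)
    (h0 : ∀ x, |h x| ≤ C * (1 + ‖x‖) ^ k) (h1 : ∀ i x, |pd i h x| ≤ C * (1 + ‖x‖) ^ k)
    (h2 : ∀ i j x, |hess h x i j| ≤ C * (1 + ‖x‖) ^ k) (ε : ℝ) (hε : 0 < ε) :
    ∃ χ : E n → ℝ, ContDiff ℝ ∞ χ ∧ HasCompactSupport χ ∧ IsEv χ ∧ (∀ x, 0 ≤ χ x) ∧
      (∀ x, χ x ≤ 1) ∧ ContDiff ℝ m (fun x => χ x * h x) ∧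
      HasCompactSupport (fun x => χ x * h x) ∧
      ∫ x, (χ x * h x - h x) ^ 2 * Real.exp (-(W x)) < ε ∧
      ∫ x, (AK τ κ (fun y => χ y * h y) x - AK τ κ h x) ^ 2 * Real.exp (-(W x)) < ε := by
  have hh2 : ContDiff ℝ 2 h := hh.of_le (by exact_mod_cast hm)
  have a1 := cut_fun W hW hint h hh2.continuous C k h0
  have a2 := cut_AK W hW hint τ hτc T hτ κ h hh2 C k h0 h1 h2
  obtain ⟨N, hN1, hN2⟩ := ((a1.eventually (gt_mem_nhds hε)).and
    (a2.eventually (gt_mem_nhds hε))).exists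
  have hP : (0 : ℝ) < (N : ℝ) + 1 := by positivity
  exact ⟨chi ((N : ℝ) + 1), chi_smooth _, chi_hcs hP, chi_even _, chi_nonneg _, chi_le_one _,
    ((chi_smooth _).of_le (by exact_mod_cast le_top)).mul hh, (chi_hcs hP).mul_right, hN1, hN2⟩

end Pool.Agent.Helper52.MM
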