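import Pool.Agent.Helper52.MM.Cut
import Pool.Agent.Helper12.MM.Boch
import Pool.Agent.Helper63.MM.Tau
import Pool.Agent.Helper17.MM.PGC
import Pool.Agent.Helper72.CM.Alg

/-!
Project MM, block B7, row CUT2: `A (A - 1) (χ_R h) → A (A - 1) h` in `L²(e^{-W})`.
-/

open MeasureTheory Filter Topology
open scoped ContDiff

namespace Pool.Agent.Helper52.MM

open CM MM12

variable {n : ℕ}

/-! ### coefficients -/

theorem pgcK_tau {V : E n → ℝ} (hV : VG V) (k : ℕ) (hk : PGC (k + 2) V) (i j : Fin n) :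
    PGC k (fun x => tau V x i j) := by
  induction k generalizing i j with
  | zero => exact (CM.H63.pgc_tau hV i j).mono12 (by omega)
  | succ k ih =>
    have hc : ContDiff ℝ (k + 1 : ℕ) (fun x => tau V x i j) :=
      CM.H63.contDiff_inv (k := k + 1) (G := hess V)
        (fun a b => CM.H63.hess_contDiff (k := k + 1) (by exact_mod_cast hk.1) a b)
        (CM.H63.vg_det hV) i j
    refine CM.H17.pgc_succ_of hc fun l => ?_
    have e : pd l (fun x => tau V x i j)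
        = fun x => - ∑ a, ∑ b, tau V x i a * pd l (pd a (pd b V)) x * tau V x b j := by
      funext x
      exact CM.H63.pd_tau hV l i j x
    rw [e]
    have hk' : PGC (k + 2) V := hk.mono12 (by omega)
    refine PGC.neg12 (PGC_sum' _ fun a _ => PGC_sum' _ fun b _ => ?_)
    have h3 : PGC k (pd l (pd a (pd b V))) := ((hk.pd12 b).pd12 a).pd12 l
    exact ((ih hk' i a).mul12 h3).mul12 (ih hk' b j)

/-! ### families -/

theorem PF_of_PGC {ι : Type*} {k : ℕ} {f : E n → ℝ} (hf : PGC k f) : PF k (fun _ : ι => f) := by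
  obtain ⟨C, m, hC, h⟩ := PGC_iff.1 hf
  exact ⟨C, m, hC, fun _ => h ()⟩

theorem PF_scale (k : ℕ) (g : E n → ℝ) (hg : ContDiff ℝ ∞ g) (hc : HasCompactSupport g)
    (c : ℕ → ℝ) (hcN : ∀ N, |c N| ≤ 1) :
    PF k (fun (N : ℕ) (x : E n) => c N * g (((N : ℝ) + 1)⁻¹ • x)) := by
  induction k generalizing g c with
  | zero =>
    obtain ⟨C, hC⟩ := hg.continuous.bounded_above_of_compact_support hc
    refine PF_zero.2 ⟨fun N => continuous_const.mul (hg.continuous.comp (by fun_prop)),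
      |C|, 0, abs_nonneg _, fun N x => ?_⟩
    have h1 := hC (((N : ℝ) + 1)⁻¹ • x)
    rw [Real.norm_eq_abs] at h1
    rw [abs_mul, pow_zero, mul_one]
    calc |c N| * |g (((N : ℝ) + 1)⁻¹ • x)| ≤ 1 * C :=
          mul_le_mul (hcN N) h1 (abs_nonneg _) zero_le_one
      _ ≤ |C| := by
          rw [one_mul]
          exact le_abs_self C
  | succ k ih =>
    have hcd : ∀ N : ℕ, ContDiff ℝ ∞ (fun x : E n => g (((N : ℝ) + 1)⁻¹ • x)) := fun N =>
      hg.comp (contDiff_const_smul _)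
    refine PF_succ.2 ⟨fun N => (contDiff_const.mul (hcd N)).of_le
      (WithTop.coe_le_coe.mpr le_top), ?_, fun i => ?_⟩
    · obtain ⟨C, hC⟩ := hg.continuous.bounded_above_of_compact_support hc
      refine ⟨|C|, 0, abs_nonneg _, fun N x => ?_⟩
      have h1 := hC (((N : ℝ) + 1)⁻¹ • x)
      rw [Real.norm_eq_abs] at h1
      rw [abs_mul, pow_zero, mul_one]
      calc |c N| * |g (((N : ℝ) + 1)⁻¹ • x)| ≤ 1 * C :=
            mul_le_mul (hcN N) h1 (abs_nonneg _) zero_le_one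
        _ ≤ |C| := by
            rw [one_mul]
            exact le_abs_self C
    · have e : (fun (N : ℕ) => CM.pd i (fun x : E n => c N * g (((N : ℝ) + 1)⁻¹ • x))) =
          fun (N : ℕ) (x : E n) => (c N * ((N : ℝ) + 1)⁻¹) * CM.pd i g (((N : ℝ) + 1)⁻¹ • x) := by
        funext N x
        rw [pd_const_mul i _ ((hcd N).differentiable (by simp) x), pd_scale]
        ring
      rw [e]
      refine ih (CM.pd i g) (pd_cont_of (k := ⊤) i (by simpa using hg)) (pd_hcs i hc) _ fun N => ?_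
      have h0 : (0 : ℝ) ≤ N := Nat.cast_nonneg N
      have h1 : ((N : ℝ) + 1)⁻¹ ≤ 1 := inv_le_one_of_one_le₀ (by linarith)
      have h2 : 0 ≤ ((N : ℝ) + 1)⁻¹ := by positivity
      rw [abs_mul, abs_of_nonneg h2]
      calc |c N| * ((N : ℝ) + 1)⁻¹ ≤ 1 * 1 := mul_le_mul (hcN N) h1 h2 zero_le_one
        _ = 1 := one_mul 1

theorem PF_chi (k : ℕ) : PF k (fun N : ℕ => (chi ((N : ℝ) + 1) : E n → ℝ)) := by
  have h := PF_scale (n := n) k (bmp n) (bmp n).contDiff (bmp n).hasCompactSupport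
    (fun _ => 1) (fun _ => by simp)
  have e : (fun (N : ℕ) (x : E n) => (1 : ℝ) * bmp n (((N : ℝ) + 1)⁻¹ • x)) =
      fun N : ℕ => (chi ((N : ℝ) + 1) : E n → ℝ) := by
    funext N x
    rw [one_mul]
    rfl
  rw [← e]
  exact h

theorem PF_AK {ι : Type*} {k : ℕ} {τ : E n → Mt n} (hτ : ∀ i j, PGC k (fun x => τ x i j))
    (κ : ℝ) {f : ι → E n → ℝ} (hf : PF (k + 2) f) : PF k (fun a => AK τ κ (f a)) := by
  have h1 : PF k (fun a x => ∑ i, ∑ j, τ x i j * hess (f a) x i j) := by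
    refine PF_sum _ fun i _ => PF_sum _ fun j _ => ?_
    have h2 : PF k (fun a x => hess (f a) x i j) := (PF.pd (PF.pd hf j) i)
    exact (PF_of_PGC (hτ i j)).mul h2
  have h3 : PF k (fun a => CM.eul (f a)) := (PF.eul (k := k + 1) hf).mono (by omega)
  have h4 : PF k (fun a x => κ * f a x) := PF.cmul (hf.mono (by omega)) κ
  exact ((h1.sub h3).neg).sub h4

/-! ### locality -/

theorem pd_germ {f g : E n → ℝ} {x : E n} (h : f =ᶠ[𝓝 x] g) (i : Fin n) :
    CM.pd i f =ᶠ[𝓝 x] CM.pd i g := by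
  filter_upwards [h.fderiv (𝕜 := ℝ)] with y hy
  show fderiv ℝ f y _ = fderiv ℝ g y _
  rw [hy]

theorem AK_germ {f g : E n → ℝ} {x : E n} (h : f =ᶠ[𝓝 x] g) (τ : E n → Mt n) (κ : ℝ) :
    AK τ κ f =ᶠ[𝓝 x] AK τ κ g := by
  have h1 : ∀ᶠ y in 𝓝 x, ∀ i j, hess f y i j = hess g y i j := by
    rw [eventually_all]
    intro i
    rw [eventually_all]
    intro j
    exact pd_germ (pd_germ h j) i
  filter_upwards [h, h.fderiv (𝕜 := ℝ), h1] with y h2 h3 h4
  unfold AK LL tr2 CM.eul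
  rw [h2, h3]
  simp only [h4]

theorem chi_mul_germ {R : ℝ} (hR : 0 < R) {x : E n} (hx : ‖x‖ < R) (h : E n → ℝ) :
    (fun y => chi R y * h y) =ᶠ[𝓝 x] h := by
  have : Metric.ball (0 : E n) R ∈ 𝓝 x := Metric.isOpen_ball.mem_nhds (by simpa using hx)
  filter_upwards [this] with y hy
  rw [chi_one hR (mem_ball_zero_iff.mp hy).le, one_mul]

/-- `A (A - 1) (χ_R h) → A (A - 1) h` in `L²` -/
theorem cut_gf {V h : E n → ℝ} (hV : VG V) (hV5 : PGC 5 V) (hh : PGC 5 h) :
    Tendsto (fun N : ℕ => ∫ x, (gf V (fun y => chi ((N : ℝ) + 1) y * h y) x - gf V h x) ^ 2 *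
      Real.exp (-(WW V x))) atTop (𝓝 0) := by
  have hτ : ∀ i j, PGC 3 (fun x => tau V x i j) := pgcK_tau hV 3 hV5
  have hτ1 : ∀ i j, PGC 1 (fun x => tau V x i j) := fun i j => (hτ i j).mono12 (by omega)
  have hW := WC_of_VG hV
  have hF : PF 5 (fun (N : ℕ) (y : E n) => chi ((N : ℝ) + 1) y * h y) :=
    (PF_chi 5).mul (PF_of_PGC hh)
  have h1 : PF 1 (fun (N : ℕ) => gf V (fun y => chi ((N : ℝ) + 1) y * h y)) := by
    unfold gf
    exact PF_AK (k := 1) hτ1 0 (PF_AK (k := 3) hτ 1 hF)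
  have h2 : PF 1 (fun (_ : ℕ) => gf V h) := by
    unfold gf
    exact PF_AK (k := 1) hτ1 0 (PF_AK (k := 3) hτ 1 (PF_of_PGC hh))
  obtain ⟨C, m, hC, hb⟩ := (h1.sub h2).bound
  apply tail_tendsto (WW V) (fun x => C * (1 + ‖x‖) ^ m)
  · have h3 : PGC 0 (fun x : E n => (C * (1 + ‖x‖) ^ m) ^ 2) := by
      refine CM.H17.pgc_zero_iff.2 ⟨by fun_prop, C ^ 2, m * 2, fun x => ?_⟩
      show |(C * (1 + ‖x‖) ^ m) ^ 2| ≤ C ^ 2 * (1 + ‖x‖) ^ (m * 2)
      rw [abs_of_nonneg (by positivity), mul_pow, ← pow_mul]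
    exact int_pgc hW h3
  · intro N
    have c1 := (h1.contDiff N).continuous
    have c2 := (h2.contDiff N).continuous
    exact (((c1.sub c2).pow 2).mul (Real.continuous_exp.comp hW.1.neg)).aestronglyMeasurable
  · exact hb
  · intro x
    obtain ⟨N0, hN0⟩ := exists_nat_ge ‖x‖
    filter_upwards [eventually_ge_atTop N0] with N hN
    have hN' : ‖x‖ < (N : ℝ) + 1 := by
      have : (N0 : ℝ) ≤ N := by exact_mod_cast hN
      linarith
    have hP : (0 : ℝ) < (N : ℝ) + 1 := by positivity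
    have h3 := AK_germ (AK_germ (chi_mul_germ hP hN' h) (tau V) 1) (tau V) 0
    have h4 : gf V (fun y => chi ((N : ℝ) + 1) y * h y) x = gf V h x := h3.self_of_nhds
    rw [h4, sub_self]

/-- row CUT2 -/
theorem cut2 {V h : E n → ℝ} (hV : VG V) (hV5 : PGC 5 V) (hh : PGC 5 h) (he : IsEv h)
    (ε : ℝ) (hε : 0 < ε) : ∃ h' : E n → ℝ, ContDiff ℝ 5 h' ∧ HasCompactSupport h' ∧ IsEv h' ∧
      ∫ x, (gf V h' x - gf V h x) ^ 2 * Real.exp (-(WW V x)) < ε := by
  obtain ⟨N, hN⟩ := ((cut_gf hV hV5 hh).eventually (gt_mem_nhds hε)).exists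
  have hP : (0 : ℝ) < (N : ℝ) + 1 := by positivity
  refine ⟨_, ?_, ?_, ?_, hN⟩
  · exact ((chi_smooth _).of_le (WithTop.coe_le_coe.mpr le_top)).mul (by exact_mod_cast hh.1)
  · exact (chi_hcs hP).mul_right
  · intro x
    show chi _ (-x) * h (-x) = chi _ x * h x
    rw [chi_even, he]

/-! ### compactly supported functions are in `HB` -/

theorem HB_of_cs (k : ℕ) (z : E n → ℝ) (hz : ContDiff ℝ (k + 1 : ℕ) z) (hc : HasCompactSupport z) :
    ∃ N, HB k N z := by
  have hB : ∀ g : E n → ℝ, Continuous g → HasCompactSupport g → ∃ C : ℝ, 0 ≤ C ∧ ∀ x, |g x| ≤ C := by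
    intro g hg hgc
    obtain ⟨C, hC⟩ := hg.bounded_above_of_compact_support hgc
    refine ⟨max C 0, le_max_right _ _, fun x => le_trans ?_ (le_max_left _ _)⟩
    simpa [Real.norm_eq_abs] using hC x
  have h0 : ∀ g : E n → ℝ, ContDiff ℝ 1 g → HasCompactSupport g → ∃ a, 0 ≤ a ∧ H0 a g := by
    intro g hg hgc
    obtain ⟨C, hC0, hC⟩ := hB g hg.continuous hgc
    choose D hD0 hD using fun i => hB (CM.pd i g)
      ((pd_cont_of (k := 0) i (by simpa using hg)).continuous) (pd_hcs i hgc)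
    have hS : 0 ≤ ∑ i, D i := Finset.sum_nonneg fun i _ => hD0 i
    have := CM72.st_LIP0 n (C + ∑ i, D i) g hg (fun x => by linarith [hC x]) (fun x i => by
      have h3 : D i ≤ ∑ i, D i := Finset.single_le_sum (fun i _ => hD0 i) (Finset.mem_univ i)
      linarith [hD i x])
    exact ⟨_, by positivity, this⟩
  induction k generalizing z with
  | zero =>
    obtain ⟨a, _, ha⟩ := h0 z (by exact_mod_cast hz) hc
    exact ⟨a, CM72.HB_zero_iff.2 ⟨hz.continuous, ha⟩⟩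
  | succ k ih =>
    obtain ⟨a, ha0, ha⟩ := h0 z (hz.of_le (by norm_cast; omega)) hc
    choose b hb using fun i => ih (CM.pd i z) (contDiff_pd' hz) (pd_hcs i hc)
    have hb0 : ∀ i, 0 ≤ b i := fun i => CM72.HB_nonneg (hb i)
    have hS : 0 ≤ ∑ i, b i := Finset.sum_nonneg fun i _ => hb0 i
    refine ⟨a + ∑ i, b i, CM72.HB_succ_iff.2 ⟨hz.of_le (by norm_cast; omega),
      CM72.H0_mono ha (by linarith), fun i => CM72.HB_mono (hb i) ?_⟩⟩
    have h3 : b i ≤ ∑ i, b i := Finset.single_le_sum (fun i _ => hb0 i) (Finset.mem_univ i)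
    linarith

end Pool.Agent.Helper52.MM
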